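import Pool.Agent.Helper74.CO.Goals2

/-!
# Project CO (MP_c5396e_co), packet POU: the Fejér weights at the translates by `1 / M`
-/

set_option autoImplicit false

namespace Pool.Agent.Helper14.CO

open Finset Pool.Agent.Helper74.CO

theorem ex_add (s t : ℝ) : ex (s + t) = ex s * ex t := by
  unfold ex
  rw [← Complex.exp_add]
  congr 1
  push_cast
  ring

theorem ex_zero : ex 0 = 1 := by
  unfold ex
  simp

theorem ex_natMul (m : ℕ) (s : ℝ) : ex (m * s) = ex s ^ m := by
  unfold ex
  rw [← Complex.exp_nat_mul]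
  congr 1
  push_cast
  ring

theorem ex_intCast (n : ℤ) : ex (n : ℝ) = 1 := by
  unfold ex
  rw [Complex.exp_eq_one_iff]
  exact ⟨n, by push_cast; ring⟩

theorem conj_ex (t : ℝ) : (starRingEnd ℂ) (ex t) = ex (-t) := by
  unfold ex
  rw [← Complex.exp_conj]
  congr 1
  simp only [map_mul, Complex.conj_I, Complex.conj_ofReal, map_ofNat, Complex.ofReal_neg]
  ring

/-- the sum over all `M`-th parts. -/
theorem sum_ex {M : ℕ} (n : ℤ) (hn : n.natAbs < M) (h0 : n ≠ 0) :
    ∑ m ∈ range M, ex (n * (m / M)) = 0 := by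
  have hM : (M : ℝ) ≠ 0 := by
    have : 0 < M := by omega
    positivity
  have h1 : ∀ m : ℕ, ex (n * (m / M)) = ex (n / M) ^ m := fun m => by
    rw [← ex_natMul]
    congr 1
    ring
  simp only [h1]
  have h2 : ex (n / M : ℝ) ≠ 1 := by
    intro h
    unfold ex at h
    rw [Complex.exp_eq_one_iff] at h
    obtain ⟨k, hk⟩ := h
    have h3 : ((n / M : ℝ) : ℂ) * (2 * Real.pi * Complex.I) = k * (2 * Real.pi * Complex.I) := by
      rw [← hk]; ring
    have h4 := mul_right_cancel₀ Complex.two_pi_I_ne_zero h3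
    have h5 : (n / M : ℝ) = k := by exact_mod_cast h4
    rw [div_eq_iff hM] at h5
    have h6 : n = k * M := by exact_mod_cast h5
    have hk0 : k ≠ 0 := by
      rintro rfl
      exact h0 (by rw [h6, zero_mul])
    have h7 : n.natAbs = k.natAbs * M := by rw [h6, Int.natAbs_mul, Int.natAbs_natCast]
    have h8 : 1 ≤ k.natAbs := by omega
    have h9 : M ≤ k.natAbs * M := Nat.le_mul_of_pos_left _ h8
    omega
  have h3 : ex (n / M : ℝ) ^ M = 1 := by
    rw [← ex_natMul]
    have : (M : ℝ) * (n / M : ℝ) = n := by field_simp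
    rw [this, ex_intCast]
  rw [geom_sum_eq h2, h3, sub_self, zero_div]

theorem t_POU : POU := by
  intro K M t hK hKM
  have hK0 : (K : ℝ) ≠ 0 := by positivity
  have hM0 : (M : ℝ) ≠ 0 := by
    have : 0 < M := by omega
    positivity
  have key : ∑ m ∈ range M, ‖∑ j ∈ range K, ex (j * (t - m / M))‖ ^ 2 = (K : ℝ) * M := by
    have h1 : ∀ m : ℕ, ((‖∑ j ∈ range K, ex (j * (t - m / M))‖ ^ 2 : ℝ) : ℂ)
        = ∑ j ∈ range K, ∑ j' ∈ range K,
          ex (((j : ℝ) - j') * t) * ex (((j' : ℤ) - (j : ℤ) : ℤ) * ((m : ℝ) / M)) := by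
      intro m
      rw [← Complex.normSq_eq_norm_sq, ← Complex.mul_conj, map_sum, Finset.sum_mul_sum]
      refine Finset.sum_congr rfl fun j _ => Finset.sum_congr rfl fun j' _ => ?_
      rw [conj_ex, ← ex_add, ← ex_add]
      congr 1
      push_cast
      ring
    have h2 : ((∑ m ∈ range M, ‖∑ j ∈ range K, ex (j * (t - m / M))‖ ^ 2 : ℝ) : ℂ)
        = ((K : ℝ) * M : ℝ) := by
      rw [Complex.ofReal_sum]
      simp only [h1]
      rw [Finset.sum_comm]
      have h3 : ∀ j ∈ range K, ∑ m ∈ range M, ∑ j' ∈ range K,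
          ex (((j : ℝ) - j') * t) * ex (((j' : ℤ) - (j : ℤ) : ℤ) * ((m : ℝ) / M)) = (M : ℂ) := by
        intro j hj
        rw [Finset.sum_comm, Finset.sum_eq_single j]
        · simp [ex_zero]
        · intro j' hj' hne
          rw [← Finset.mul_sum, sum_ex _ _ (by omega), mul_zero]
          rw [Finset.mem_range] at hj hj'
          omega
        · intro h
          exact absurd hj h
      rw [Finset.sum_congr rfl h3, Finset.sum_const, Finset.card_range, nsmul_eq_mul]
      push_cast
      rfl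
    exact_mod_cast h2
  unfold fw
  rw [← Finset.sum_div, key]
  field_simp

end Pool.Agent.Helper14.CO
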